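import Pool.Agent.Q51.SZ.Stm2
import Pool.Agent.Y157.PS.Tools

/-! Job GLO of project SZ (helper51), part 1: transport along an isomorphism of fields. -/

set_option autoImplicit false

namespace Pool.Agent.Q162.SZ

open Pool.Agent.Q51.SZ Pool.Agent.Y157.PS Polynomial

section roots

variable {A κ : Type} [Field A] [Field κ] (e : A ≃+* κ) (f : ℤ[X])

theorem map_cast : (f.map (Int.castRingHom A)).map (e : A →+* κ) = f.map (Int.castRingHom κ) := by
  rw [Polynomial.map_map]
  congr 1
  exact RingHom.ext_int _ _

theorem rts_map (a : A) : e a ∈ rts f κ ↔ a ∈ rts f A := by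
  rw [mem_rts, mem_rts, ← map_cast e f, Polynomial.map_ne_zero_iff e.injective]
  have h1 : ((f.map (Int.castRingHom A)).map (e : A →+* κ)).eval (e a) =
      e ((f.map (Int.castRingHom A)).eval a) := by
    have h2 := Polynomial.eval_map_apply (f := (e : A →+* κ)) (p := f.map (Int.castRingHom A)) a
    exact h2
  unfold IsRoot
  rw [h1, map_eq_zero_iff e e.injective]

/-- the zeros of `f` in the two fields -/
def eR : Rt f A ≃ Rt f κ := e.toEquiv.subtypeEquiv (fun a => (rts_map e f a).symm)

theorem eR_val (i : Rt f A) : (eR e f i).1 = e i.1 := rfl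

theorem Wf_map (D : ℤ) (r i : Rt f A) :
    e (Wf f D r i) = Wf f D (eR e f r) (eR e f i) := by
  classical
  unfold Wf
  by_cases h : i = r
  · rw [if_pos h, if_pos (congrArg (eR e f) h), map_div₀, map_mul, map_intCast, map_intCast,
      map_prod]
    congr 2
    refine Finset.prod_equiv (eR e f) (fun k => ?_) (fun k _ => ?_)
    · rw [Finset.mem_erase, Finset.mem_erase]
      exact ⟨fun h => ⟨fun h' => h.1 ((eR e f).injective h'), Finset.mem_univ _⟩,
        fun h => ⟨fun h' => h.1 (congrArg (eR e f) h'), Finset.mem_univ _⟩⟩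
    · rw [map_sub]
      rfl
  · rw [if_neg h, if_neg (fun h' => h ((eR e f).injective h')), map_sub]
    rfl

theorem Cf_map (D : ℤ) (r i j : Rt f A) :
    e (Cf f D r i j) = Cf f D (eR e f r) (eR e f i) (eR e f j) := by
  unfold Cf
  rw [map_div₀, Wf_map, Wf_map]

end roots

section val

variable {A κ : Type} [Field A] [Field κ] (e : A ≃+* κ) (V : ValuationSubring A)

/-- the valuation ring of `κ` -/
def tV : ValuationSubring κ := V.comap (e.symm : κ →+* A)

theorem mem_tV (z : κ) : z ∈ tV e V ↔ e.symm z ∈ V := ValuationSubring.mem_comap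

theorem non_tV (z : κ) : z ∈ (tV e V).nonunits ↔ e.symm z ∈ V.nonunits := by
  rw [nonunits_iff, nonunits_iff, mem_tV, mem_tV, map_inv₀, map_eq_zero_iff e.symm e.symm.injective]

theorem isU_tV (z : κ) : IsU (tV e V) z ↔ IsU V (e.symm z) := by
  unfold IsU
  rw [mem_tV, mem_tV, map_inv₀, Ne, Ne, map_eq_zero_iff e.symm e.symm.injective]

theorem at_tV {B l : ℕ} (h : At A B l V) : At κ B l (tV e V) :=
  ⟨h.pr, h.nd, by
    rw [non_tV, map_natCast]
    exact h.ab⟩

end val

/-- the polynomial is separable if it has enough zeros -/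
theorem sep {f : ℤ[X]} {k κ : Type} [Field k] [CharZero k] [Field κ] [CharZero κ]
    [IsAlgClosed κ] (i : k →+* κ) (h : (rts f κ).card = f.natDegree) (h3 : 3 ≤ f.natDegree) :
    (f.map (Int.castRingHom k)).Separable := by
  classical
  have h0 : (f.map (Int.castRingHom k)).map i = f.map (Int.castRingHom κ) := by
    rw [Polynomial.map_map]
    congr 1
    exact RingHom.ext_int _ _
  rw [← Polynomial.separable_map i, h0]
  have hf : f.map (Int.castRingHom κ) ≠ 0 := by
    rw [Ne, Polynomial.map_eq_zero_iff (RingHom.injective_int _)]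
    rintro rfl
    rw [natDegree_zero] at h3
    omega
  rw [← Polynomial.nodup_roots_iff_of_splits hf (IsAlgClosed.splits _)]
  have h1 : (f.map (Int.castRingHom κ)).roots.toFinset.card = f.natDegree := h
  have h2 : (f.map (Int.castRingHom κ)).roots.card ≤ f.natDegree :=
    (Polynomial.card_roots' _).trans (Polynomial.natDegree_map_le)
  have h4 : (f.map (Int.castRingHom κ)).roots.toFinset.card ≤
      (f.map (Int.castRingHom κ)).roots.card := Multiset.toFinset_card_le _
  exact (Multiset.toFinset_card_eq_card_iff_nodup).1 (by omega)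

end Pool.Agent.Q162.SZ
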