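import Pool.Agent.Q162.SZ.Glo1
import Pool.Agent.Y157.PS.Geo3

/-! Job GLO of project SZ (helper51), part 2: the field `K` inside `A` and its Galois group. -/

set_option autoImplicit false

namespace Pool.Agent.Q162.SZ

open Pool.Agent.Q51.SZ Pool.Agent.Y157.PS Polynomial

section fields

variable {A K κ : Type} [Field A] [Algebra ℚ A] [Field K] [NumberField K] [Field κ]
  [Algebra ℚ κ] [Algebra K κ] (e : A ≃ₐ[ℚ] κ)

/-- the embedding of `K` in `A` -/
noncomputable def jK : K →ₐ[ℚ] A :=
  { ((e.symm : κ →+* A).comp (algebraMap K κ)) with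
    commutes' := fun c => by
      change ((e.symm : κ →+* A).comp (algebraMap K κ)) (algebraMap ℚ K c) = _
      rw [eq_ratCast, map_ratCast, eq_ratCast] }

variable (K) in
/-- the field of `K` in `A` -/
noncomputable def NK : IntermediateField ℚ A := (jK (K := K) e).fieldRange

theorem jK_mem (c : K) : jK e c ∈ NK K e := ⟨c, rfl⟩

theorem e_jK (c : K) : e (jK e c) = algebraMap K κ c := e.apply_symm_apply _

/-- `K` and its image -/
noncomputable def eN : K →+ NK K e where
  toFun c := ⟨jK e c, jK_mem e c⟩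
  map_zero' := Subtype.ext (map_zero (jK e))
  map_add' a b := Subtype.ext (map_add (jK e) a b)

theorem eN_inj : Function.Injective (eN (K := K) e) := fun _ _ h =>
  (jK (K := K) e).injective (congrArg Subtype.val h)

theorem eN_surj : Function.Surjective (eN (K := K) e) := by
  rintro ⟨_, c, rfl⟩
  exact ⟨c, rfl⟩

theorem NK_fin : FiniteDimensional ℚ (NK K e) :=
  Module.Finite.of_surjective (eN (K := K) e).toRatLinearMap (eN_surj e)

theorem NK_rank : Module.finrank ℚ (NK K e) = Module.finrank ℚ K :=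
  (LinearEquiv.ofBijective (eN (K := K) e).toRatLinearMap ⟨eN_inj e, eN_surj e⟩).finrank_eq.symm

/-- the homomorphism of the Galois groups -/
noncomputable def phi : (NK K e).fixingSubgroup →* (κ ≃ₐ[K] κ) where
  toFun σ := AlgEquiv.ofRingEquiv
    (f := ((e.symm : κ ≃+* A).trans (σ.1 : A ≃+* A)).trans (e : A ≃+* κ)) (fun c => by
      change e (σ.1 (e.symm (algebraMap K κ c))) = algebraMap K κ c
      have h1 := (IntermediateField.mem_fixingSubgroup_iff _ _).1 σ.2 (jK e c) (jK_mem e c)
      change e (σ.1 (jK e c)) = algebraMap K κ c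
      rw [h1, e_jK])
  map_one' := by
    ext z
    exact e.apply_symm_apply z
  map_mul' σ τ := by
    ext z
    change e (σ.1 (τ.1 (e.symm z))) = e (σ.1 (e.symm (e (τ.1 (e.symm z)))))
    rw [e.symm_apply_apply]

theorem phi_apply (σ : (NK K e).fixingSubgroup) (z : κ) :
    phi e σ z = e (σ.1 (e.symm z)) := rfl

theorem phi_e (σ : (NK K e).fixingSubgroup) (a : A) : phi e σ (e a) = e (σ.1 a) := by
  rw [phi_apply, e.symm_apply_apply]

theorem phi_dec (V : ValuationSubring A) (σ : (NK K e).fixingSubgroup) (h : Dec V σ.1) :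
    Dec (tV (e : A ≃+* κ) V) (phi e σ) := by
  intro z
  rw [mem_tV, mem_tV]
  change e.symm (e (σ.1 (e.symm z))) ∈ V ↔ e.symm z ∈ V
  rw [e.symm_apply_apply]
  exact h _

theorem phi_ine (V : ValuationSubring A) (σ : (NK K e).fixingSubgroup) (h : Ine V σ.1) :
    Ine (tV (e : A ≃+* κ) V) (phi e σ) := by
  refine ⟨phi_dec e V σ h.1, fun z hz => ?_⟩
  rw [mem_tV] at hz
  rw [non_tV]
  change e.symm (e (σ.1 (e.symm z)) - z) ∈ V.nonunits
  rw [map_sub, e.symm_apply_apply]
  exact h.2 _ hz

/-- an intermediate field of `κ / K`, over `ℚ` -/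
def ovQ (E : IntermediateField K κ) : IntermediateField ℚ κ :=
  { E.toSubfield with
    algebraMap_mem' := fun c => by
      have h1 : algebraMap ℚ κ c = algebraMap K κ (c : K) := by
        rw [map_ratCast, eq_ratCast]
      rw [h1]
      exact E.algebraMap_mem _ }

theorem ovQ_fin (E : IntermediateField K κ) (hE : FiniteDimensional K E) :
    FiniteDimensional ℚ (ovQ E) := by
  have : CharZero E := charZero_of_injective_algebraMap (algebraMap K E).injective
  have h1 : Module.Finite ℚ E := Module.Finite.trans K E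
  let i : E →+ ovQ E :=
    { toFun := fun z => ⟨z.1, z.2⟩
      map_zero' := rfl
      map_add' := fun _ _ => rfl }
  exact Module.Finite.of_surjective i.toRatLinearMap (fun z => ⟨⟨z.1, z.2⟩, rfl⟩)

theorem phi_fix (E : IntermediateField K κ) (hE : FiniteDimensional K E) :
    ∃ E' : IntermediateField ℚ A, FiniteDimensional ℚ E' ∧
      ∀ σ : (NK K e).fixingSubgroup, σ.1 ∈ E'.fixingSubgroup → phi e σ ∈ E.fixingSubgroup := by
  have h1 := ovQ_fin E hE
  let i : ovQ E →+ (ovQ E).map (e.symm : κ →ₐ[ℚ] A) :=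
    { toFun := fun z => ⟨e.symm z.1, ⟨z.1, z.2, rfl⟩⟩
      map_zero' := Subtype.ext (map_zero e.symm)
      map_add' := fun a b => Subtype.ext (map_add e.symm a.1 b.1) }
  refine ⟨(ovQ E).map (e.symm : κ →ₐ[ℚ] A),
    Module.Finite.of_surjective i.toRatLinearMap ?_, fun σ hσ => ?_⟩
  · rintro ⟨_, z, hz, rfl⟩
    exact ⟨⟨z, hz⟩, rfl⟩
  rw [IntermediateField.mem_fixingSubgroup_iff] at hσ ⊢
  intro z hz
  rw [phi_apply, hσ (e.symm z) ⟨z, hz, rfl⟩, e.apply_symm_apply]

end fields

end Pool.Agent.Q162.SZ
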