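import Pool.Agent.Q162.SZ.Glo2
import Pool.Agent.Q51.SZ.Stm3
import Pool.Agent.Y157.PS.GeoC
import Pool.Agent.Y157.PS.Num

/-! Job GLO of project SZ (helper51), part 3: the section. -/

set_option autoImplicit false
set_option linter.all false

namespace Pool.Agent.Q162.SZ

open Pool.Agent.Q51.SZ Pool.Agent.Y157.PS Polynomial

section sec

variable {q : ℕ} {A K F Ω : Type} [Field A] [Algebra ℚ A] [Field K] [NumberField K] [Field F]
  [Field Ω] [Algebra K F] [Algebra F Ω] [Algebra K Ω] [IsScalarTower K F Ω]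

variable (q K F Ω) in
/-- the constants -/
noncomputable def cst : algebraicClosure K Ω →+* geomPro q K F Ω where
  toFun c := ⟨(c : Ω), const_geomPro q K c⟩
  map_one' := rfl
  map_mul' _ _ := rfl
  map_zero' := rfl
  map_add' _ _ := rfl

theorem cst_val (c : algebraicClosure K Ω) : ((cst q K F Ω c : geomPro q K F Ω) : Ω) = c := rfl

variable [Algebra ℚ (algebraicClosure K Ω)] (e : A ≃ₐ[ℚ] algebraicClosure K Ω)
  (S : (algebraicClosure K Ω ≃ₐ[K] algebraicClosure K Ω) →*
      (geomPro q K F Ω ≃ₐ[F] geomPro q K F Ω))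

/-- the action -/
noncomputable def sH : (NK K e).fixingSubgroup →* RingAut (geomPro q K F Ω) where
  toFun σ := (S (phi e σ)).toRingEquiv
  map_one' := by
    rw [map_one, map_one]
    rfl
  map_mul' σ τ := by
    rw [map_mul, map_mul]
    rfl

theorem sH_apply (σ : (NK K e).fixingSubgroup) (z : geomPro q K F Ω) :
    sH e S σ z = S (phi e σ) z := rfl

end sec

theorem glo0 (h1 : S_LOK) (h2 : S_IDX) : S_GLO0 := by
  intro f q B hq hdvd h3 hgd A _ _ _ D hD K F Ω _ _ _ _ _ _ _ _ _ _ x y hx hxy htop S hS hcomp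
  haveI : Fact q.Prime := ⟨hq⟩
  have hK : CharZero (algebraicClosure K Ω) :=
    charZero_of_injective_algebraMap (algebraMap K (algebraicClosure K Ω)).injective
  have hac : IsAlgClosed (algebraicClosure K Ω) :=
    (inferInstance : IsAlgClosure K (algebraicClosure K Ω)).isAlgClosed
  have halg : Algebra.IsAlgebraic ℚ (algebraicClosure K Ω) :=
    Algebra.IsAlgebraic.trans ℚ K (algebraicClosure K Ω)
  have hcl : IsAlgClosure ℚ (algebraicClosure K Ω) := ⟨hac, halg⟩
  let e : A ≃ₐ[ℚ] algebraicClosure K Ω := IsAlgClosure.equiv ℚ A _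
  have hgκ : Gd (algebraicClosure K Ω) f q B := hgd _
  have hmap : ∀ i : Rt f A, e i.1 ∈ rts f (algebraicClosure K Ω) := fun i =>
    (rts_map (e : A ≃+* algebraicClosure K Ω) f i.1).2 i.2
  have hD0 : (D : K) ≠ 0 := Int.cast_ne_zero.2 hD.ne_zero
  have hsep : (f.map (Int.castRingHom K)).Separable :=
    sep (algebraMap K (algebraicClosure K Ω)) hgκ.crd h3
  have hdeg : (f.map (Int.castRingHom K)).natDegree = f.natDegree :=
    natDegree_map_eq_of_injective (RingHom.injective_int _) f
  have hzero : ∀ i : Rt f A, aeval (e i.1) (f.map (Int.castRingHom K)) = 0 := by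
    intro i
    have h4 := (mem_rts.1 (hmap i)).2
    unfold IsRoot at h4
    rw [eval_map] at h4
    rw [aeval_def, eval₂_map]
    have h5 : (algebraMap K (algebraicClosure K Ω)).comp (Int.castRingHom K) =
        Int.castRingHom (algebraicClosure K Ω) := RingHom.ext_int _ _
    rw [h5]
    exact h4
  have hxy' : algebraMap K F (D : K) * y ^ q = aeval x (f.map (Int.castRingHom K)) := by
    rw [map_intCast, hxy, aeval_def, aeval_def, eval₂_map]
    congr 1
    exact RingHom.ext_int _ _
  have hsym : ∀ z, e.symm (algebraMap K (algebraicClosure K Ω) z) = jK e z := fun z => rfl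
  refine ⟨NK K e, geomPro q K F Ω, inferInstance,
    { s := sH e S
      ι := (cst q K F Ω).comp (e : A →+* algebraicClosure K Ω)
      hι := ?_
      cont := ?_
      x := algebraMap F (geomPro q K F Ω) x
      hx := fun σ => (S (phi e σ)).commutes x
      htr := ?_
      hrt := ?_ }, NK_fin e, NK_rank e, ?_⟩
  · intro σ a
    apply Subtype.ext
    change ((S (phi e σ) (cst q K F Ω (e a)) : geomPro q K F Ω) : Ω) = (e (σ.1 a) : Ω)
    rw [hcomp (phi e σ) (e a) (cst q K F Ω (e a)) rfl, phi_e]
  · intro z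
    obtain ⟨E, hE, hE1⟩ := cont_fix S hS z
    obtain ⟨E', hE', hE2⟩ := phi_fix e E hE
    exact ⟨E', hE', fun σ hσ => hE1 _ (hE2 σ hσ)⟩
  · intro a ha
    apply hx
    have h4 : ((e a : algebraicClosure K Ω) : Ω) = algebraMap F Ω x := congrArg Subtype.val ha
    have h5 : IsAlgebraic K (algebraMap F Ω x) := by
      rw [← h4]
      exact isAlgebraic_iff_isIntegral.2 (e a).2
    exact (isAlgebraic_algebraMap_iff (algebraMap F Ω).injective).1 h5
  · intro i j
    obtain ⟨h, hh⟩ := a_rts q K F Ω (f.map (Int.castRingHom K)) hsep (by rw [hdeg]; exact hdvd)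
      (by rw [hdeg]; exact h3) (D : K) hD0 x y hx hxy' htop (e i.1) (e j.1) (hzero i) (hzero j)
    exact ⟨h, Subtype.ext hh⟩
  · intro l V hV
    rcases h1 f q B hq hdvd h3 K F Ω hgκ D hD x y hx hxy htop S hS hcomp l
      (tV (e : A ≃+* algebraicClosure K Ω) V) (at_tV _ V hV) with ⟨hU1, hU2⟩ | ⟨hlD, r, hr, hr1, g, hg⟩
    · left
      refine ⟨fun i j α hα σ hσ => ?_, fun hlD => ?_⟩
      · exact hU1 (e i.1) (hmap i) (e j.1) (hmap j) α (congrArg Subtype.val hα) (phi e σ)
          (phi_ine e V σ hσ)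
      · obtain ⟨ϖ, n, hn, hqn, hu⟩ := hU2 hlD
        refine h2 A q l hV.pr V hV.ab (NK K e) (NK_fin e) (jK e ϖ) n (jK_mem e ϖ) hn hqn ?_
        rw [isU_tV] at hu
        have h4 : (e : A ≃+* algebraicClosure K Ω).symm
            (algebraMap K (algebraicClosure K Ω) ϖ ^ n / (l : algebraicClosure K Ω)) =
            jK e ϖ ^ n / (l : A) := by
          rw [map_div₀, map_pow, map_natCast]
          rfl
        rw [h4] at hu
        exact hu
    · right
      let r' : Rt f A := (eR (e : A ≃+* algebraicClosure K Ω) f).symm ⟨r, hr⟩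
      have hr' : eR (e : A ≃+* algebraicClosure K Ω) f r' = ⟨r, hr⟩ := Equiv.apply_symm_apply _ _
      have hr'' : e r'.1 = r := congrArg Subtype.val hr'
      refine ⟨hlD, r', fun σ hσ => ?_, fun i j => g (e i.1) (e j.1), fun i j => ⟨?_, fun σ hσ => ?_⟩⟩
      · apply Subtype.ext
        apply e.injective
        change e (σ.1 r'.1) = e r'.1
        rw [← phi_e, hr'']
        exact hr1 _ (phi_dec e V σ hσ)
      · have h4 := (hg (e i.1) (hmap i) (e j.1) (hmap j)).1
        have h5 := Cf_map (e : A ≃+* algebraicClosure K Ω) f D r' i j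
        rw [hr'] at h5
        apply Subtype.ext
        change (algebraMap F Ω x - ((e i.1 : algebraicClosure K Ω) : Ω)) /
          (algebraMap F Ω x - ((e j.1 : algebraicClosure K Ω) : Ω)) =
          ((e (Cf f D r' i j) : algebraicClosure K Ω) : Ω) *
            ((g (e i.1) (e j.1) : geomPro q K F Ω) : Ω) ^ q
        rw [h4]
        congr 2
        exact h5.symm
      · have h4 := (hg (e i.1) (hmap i) (e j.1) (hmap j)).2 (phi e σ) (phi_dec e V σ hσ)
        rw [phi_e, phi_e] at h4
        exact h4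

end Pool.Agent.Q162.SZ
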