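import Pool.Agent.Q51.SZ.Stm3
import Pool.Agent.Y674.PS.Fun
import Pool.Agent.Y157.PS.Num

/-! Job GLO of project SZ (helper51), part 4: from curves over the function field to the curve itself. -/

set_option autoImplicit false
set_option linter.all false

namespace Pool.Agent.Q162.SZ

open Pool.Agent.Q51.SZ Pool.Agent.Y157.PS Polynomial

theorem hFUN : S_FUN := Pool.Agent.Y674.PS.funct Pool.Agent.Y157.PS.a_inrt

theorem glo (h : S_GLO0) : S_GLO := by
  intro f q B hq hdvd h3 hgd A _ _ _ D hD K F Ω _ _ _ _ _ _ _ _ _ _ U hU G x y hx hxy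
  haveI : Fact q.Prime := ⟨hq⟩
  have hF0 : CharZero F := charZero_of_injective_algebraMap (algebraMap K F).injective
  have hD0 : (D : F) ≠ 0 := Int.cast_ne_zero.2 hD.ne_zero
  have hy : IsAlgebraic (IntermediateField.adjoin K {x}) y := by
    refine isAlgebraic_iff_isIntegral.2 (IsIntegral.of_pow hq.pos ?_)
    have h1 : y ^ q ∈ IntermediateField.adjoin K {x} := by
      have h2 : y ^ q = (D : F)⁻¹ * aeval x f := by
        rw [← hxy, inv_mul_cancel_left₀ hD0]
      rw [h2]
      refine mul_mem (inv_mem (intCast_mem _ D)) ?_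
      have h3 : aeval x f = algebraMap (IntermediateField.adjoin K {x}) F
          (aeval (IntermediateField.AdjoinSimple.gen K x) f) := by
        rw [← aeval_algebraMap_apply]
        rfl
      rw [h3]
      exact (aeval (IntermediateField.AdjoinSimple.gen K x) f).2
    exact isIntegral_algebraMap (x := (⟨_, h1⟩ : IntermediateField.adjoin K {x}))
  obtain ⟨F₀, Ω₀, _, _, _, _, _, _, _, _, i, x₀, y₀, hix, hiy, htop, S, hS, hScompat⟩ :=
    hFUN q K F Ω U hU G x y hx hy
  have hx0 : Transcendental K x₀ := by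
    intro halg
    apply hx
    rw [← hix]
    exact (isAlgebraic_algHom_iff i i.toRingHom.injective).2 halg
  have hxy0 : (D : F₀) * y₀ ^ q = aeval x₀ f := by
    apply i.toRingHom.injective
    have e1 : i ((D : F₀) * y₀ ^ q) = i (aeval x₀ f) := by
      rw [map_mul, map_pow, hiy, map_intCast, hxy, ← hix]
      have e2 := aeval_algHom_apply (i.restrictScalars ℤ) x₀ f
      exact e2
    exact e1
  exact h f q B hq hdvd h3 hgd A D hD K F₀ Ω₀ x₀ y₀ hx0 hxy0 htop S hS hScompat

end Pool.Agent.Q162.SZ
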