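import Pool.Agent.Q51.SZ.Stm2
import Pool.Agent.W620.SC.Norm

/-! Job KSY of project SZ (helper51): the Kummer classes of an abstract section. -/

set_option autoImplicit false

namespace Pool.Agent.Q162.SZ

open Pool.Agent.Q51.SZ Pool.Agent.Y157.PS

section

variable {f : Polynomial ℤ} {q : ℕ} {A : Type} [Field A] [Algebra ℚ A] {M : Type} [Field M]
  {H : Subgroup (A ≃ₐ[ℚ] A)}

theorem ratio_ne (S : SecH f q A M H) (i j : Rt f A) :
    (S.x - S.ι i.1) / (S.x - S.ι j.1) ≠ 0 :=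
  div_ne_zero (sub_ne_zero.2 fun h => S.htr _ h.symm) (sub_ne_zero.2 fun h => S.htr _ h.symm)

theorem s_ratio (S : SecH f q A M H) (σ : H) (i j : Rt f A) :
    S.s σ ((S.x - S.ι i.1) / (S.x - S.ι j.1)) =
      (S.x - S.ι (σ.1 • i).1) / (S.x - S.ι (σ.1 • j).1) := by
  rw [map_div₀, map_sub, map_sub, S.hx, S.hι, S.hι]
  rfl

end

theorem ksy (h1 : S_KM1) (h2 : S_INV) : S_KSY := by
  classical
  intro f q B A _ _ _ hGd hq N _ M _ S D _ hgood
  have hq0 : 0 < q := hq.pos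
  have : IsAlgClosed A := IsAlgClosure.isAlgClosed ℚ
  have hιinj : Function.Injective S.ι := S.ι.injective
  obtain ⟨F, hF, hF'⟩ := eqv_choice (Δ := N.fixingSubgroup) (X := Rt f A × Rt f A) (Y := A × M)
    (fun σ p => (σ.1 • p.1, σ.1 • p.2))
    (fun p => by
      change ((1 : A ≃ₐ[ℚ] A) • p.1, (1 : A ≃ₐ[ℚ] A) • p.2) = p
      rw [one_smul, one_smul])
    (fun σ τ p => by
      change ((σ.1 * τ.1) • p.1, (σ.1 * τ.1) • p.2) = (σ.1 • τ.1 • p.1, σ.1 • τ.1 • p.2)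
      rw [mul_smul, mul_smul])
    (fun σ y => (σ.1 y.1, S.s σ y.2))
    (fun y => by
      refine Prod.ext rfl ?_
      change S.s 1 y.2 = y.2
      rw [map_one]
      rfl)
    (fun σ τ y => by
      refine Prod.ext rfl ?_
      change S.s (σ * τ) y.2 = S.s σ (S.s τ y.2)
      rw [map_mul]
      rfl)
    Set.univ (fun _ _ _ => trivial)
    (fun p y => y.1 ≠ 0 ∧ y.2 ≠ 0 ∧
      S.ι y.1 * y.2 ^ q = (S.x - S.ι p.1.1) / (S.x - S.ι p.2.1))
    (fun σ p _ y hy => by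
      obtain ⟨hy1, hy2, hy3⟩ := hy
      refine ⟨?_, ?_, ?_⟩
      · exact (map_ne_zero_iff σ.1 (AlgEquiv.injective σ.1)).2 hy1
      · exact (map_ne_zero_iff (S.s σ) (RingEquiv.injective _)).2 hy2
      · change S.ι (σ.1 y.1) * (S.s σ y.2) ^ q =
          (S.x - S.ι (σ.1 • p.1).1) / (S.x - S.ι (σ.1 • p.2).1)
        rw [← s_ratio S σ p.1 p.2, ← hy3, map_mul, map_pow, S.hι])
    (fun p _ => by
      obtain ⟨a, β, ha, hβ, he, hfix⟩ := h1 f q A N M S hq.ne_zero p.1 p.2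
      refine ⟨(a, β), ⟨ha, hβ, he⟩, fun σ hσ => ?_⟩
      have hσ1 : σ.1 • p.1 = p.1 := congrArg Prod.fst hσ
      have hσ2 : σ.1 • p.2 = p.2 := congrArg Prod.snd hσ
      have h3 := hfix σ hσ1 hσ2
      refine Prod.ext ?_ h3
      apply hιinj
      change S.ι (σ.1 a) = S.ι a
      have h4 := s_ratio S σ p.1 p.2
      rw [hσ1, hσ2, ← he, map_mul, map_pow, h3, S.hι] at h4
      exact mul_right_cancel₀ (pow_ne_zero q hβ) h4)
  let a : Rt f A → Rt f A → A := fun i j => (F (i, j)).1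
  let β : Rt f A → Rt f A → M := fun i j => (F (i, j)).2
  have ha : ∀ i j, a i j ≠ 0 := fun i j => (hF' (i, j) trivial).1
  have hβ : ∀ i j, β i j ≠ 0 := fun i j => (hF' (i, j) trivial).2.1
  have haβ : ∀ i j, S.ι (a i j) * β i j ^ q = (S.x - S.ι i.1) / (S.x - S.ι j.1) :=
    fun i j => (hF' (i, j) trivial).2.2
  have hσa : ∀ (σ : N.fixingSubgroup) (i j : Rt f A), σ.1 (a i j) = a (σ.1 • i) (σ.1 • j) :=
    fun σ i j => (congrArg Prod.fst (hF σ (i, j) trivial)).symm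
  have hσβ : ∀ (σ : N.fixingSubgroup) (i j : Rt f A),
      S.s σ (β i j) = β (σ.1 • i) (σ.1 • j) :=
    fun σ i j => (congrArg Prod.snd (hF σ (i, j) trivial)).symm
  refine ⟨a, ha, fun σ hσ i j => hσa ⟨σ, hσ⟩ i j, fun l V hV => ?_⟩
  rcases hgood l V hV with ⟨hU, hidx⟩ | ⟨hlD, r, hr, g, hg⟩
  · left
    refine ⟨?_, hidx⟩
    have h5 : ∀ i j, ∃ b : A, b ^ q = a i j := fun i j =>
      IsAlgClosed.exists_pow_nat_eq (a i j) hq0
    choose u hu using h5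
    refine ⟨u, fun i j => ⟨(hu i j).symm, fun σ hσ hI => ?_⟩⟩
    obtain ⟨hfix, -⟩ := (h2 f q B A hGd hq l V hV).1 σ hI
    have h6 : (β i j * S.ι (u i j)) ^ q = (S.x - S.ι i.1) / (S.x - S.ι j.1) := by
      rw [mul_pow, ← map_pow, hu, mul_comm, haβ]
    have h7 := hU i j _ h6 ⟨σ, hσ⟩ hI
    have h8 := hσβ ⟨σ, hσ⟩ i j
    change S.s ⟨σ, hσ⟩ (β i j) = β (σ • i) (σ • j) at h8
    rw [hfix, hfix] at h8
    rw [map_mul, h8, S.hι] at h7
    exact hιinj (mul_left_cancel₀ (hβ i j) h7)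
  · right
    refine ⟨hlD, r, fun σ hσ hDσ => hr ⟨σ, hσ⟩ hDσ, ?_⟩
    have hC : ∀ i j, Cf f D r i j ≠ 0 := by
      intro i j h0
      have h3 := (hg i j).1
      rw [h0, map_zero, zero_mul] at h3
      exact ratio_ne S i j h3
    have h5 : ∀ i j, ∃ c : A, S.ι c = g i j / β i j := by
      intro i j
      refine Pool.Agent.W620.SC.root_mem S.ι hq0 (b := a i j / Cf f D r i j) ?_
      have hC' : S.ι (Cf f D r i j) ≠ 0 := (map_ne_zero_iff S.ι hιinj).2 (hC i j)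
      have h3 := (hg i j).1
      rw [← haβ] at h3
      rw [div_pow, map_div₀, div_eq_div_iff (pow_ne_zero q (hβ i j)) hC', h3]
      ring
    choose u hu using h5
    refine ⟨u, fun i j => ⟨?_, fun σ hσ hDσ => ?_⟩⟩
    · apply hιinj
      rw [map_mul, map_pow, hu, div_pow, mul_div_assoc', ← (hg i j).1, ← haβ,
        mul_div_cancel_right₀ _ (pow_ne_zero q (hβ i j))]
    · apply hιinj
      have h3 := (hg i j).2 ⟨σ, hσ⟩ hDσ
      have h4 := hσβ ⟨σ, hσ⟩ i j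
      rw [hu, ← S.hι ⟨σ, hσ⟩, hu, map_div₀, h3, h4]

end Pool.Agent.Q162.SZ
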