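import Pool.Agent.Q51.SZ.Stm2

/-! Jobs PRR and PRU of project SZ (helper51): products over a finite set with a group action. -/

set_option autoImplicit false

namespace Pool.Agent.Q162.SZ

open Pool.Agent.Q51.SZ Finset

section

variable {Δ X R A : Type} [Group Δ] [MulAction Δ X] [MulAction Δ R] [Field A]
  [MulSemiringAction Δ A]

theorem smul_prd [Fintype X] (σ : Δ) (g : X → A) : σ • ∏ c, g c = ∏ c, σ • g c :=
  map_prod (MulSemiringAction.toRingHom Δ A σ) g univ

theorem prod_shift [Fintype X] (σ : Δ) (g : X → A) : ∏ c, g (σ • c) = ∏ c, g c :=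
  Equiv.prod_comp (MulAction.toPerm σ) g

theorem smul_dv (σ : Δ) (a b : A) : σ • (a / b) = (σ • a) / (σ • b) :=
  map_div₀ (MulSemiringAction.toRingHom Δ A σ) a b

end

theorem prr : S_PRR := by
  classical
  intro Δ X R A _ _ _ _ _ _ _ q C av hC hav h
  rcases isEmpty_or_nonempty X with hX | ⟨⟨c₀⟩⟩
  · refine ⟨fun _ => 0, fun _ _ => 1, fun _ _ => rfl, ?_, fun σ i j => smul_one σ, fun i j => ?_⟩
    · rw [Finset.sum_const_zero, Fintype.card_eq_zero]
    · rw [Finset.univ_eq_empty, Finset.prod_empty]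
      simp
  · obtain ⟨r₀, -, u₀, -⟩ := h c₀
    have hne : Nonempty (R × (R → R → A)) := ⟨(r₀, u₀)⟩
    obtain ⟨F, hF, hF'⟩ := eqv_choice (Δ := Δ) (X := X) (Y := R × (R → R → A))
      (fun σ c => σ • c) (fun c => one_smul Δ c) (fun σ τ c => mul_smul σ τ c)
      (fun σ y => (σ • y.1, fun i j => σ • y.2 (σ⁻¹ • i) (σ⁻¹ • j)))
      (fun y => by
        refine Prod.ext (one_smul Δ y.1) ?_
        funext i j
        change (1 : Δ) • y.2 ((1 : Δ)⁻¹ • i) ((1 : Δ)⁻¹ • j) = y.2 i j
        rw [inv_one, one_smul, one_smul, one_smul])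
      (fun σ τ y => by
        refine Prod.ext (mul_smul σ τ y.1) ?_
        funext i j
        change (σ * τ) • y.2 ((σ * τ)⁻¹ • i) ((σ * τ)⁻¹ • j) =
          σ • τ • y.2 (τ⁻¹ • σ⁻¹ • i) (τ⁻¹ • σ⁻¹ • j)
        rw [mul_inv_rev, mul_smul, mul_smul, mul_smul])
      Set.univ (fun _ _ _ => trivial)
      (fun c y => ∀ i j, av c i j = C y.1 i j * y.2 i j ^ q)
      (fun σ c _ y hy i j => by
        change av (σ • c) i j = C (σ • y.1) i j * (σ • y.2 (σ⁻¹ • i) (σ⁻¹ • j)) ^ q
        have h1 := hav σ c (σ⁻¹ • i) (σ⁻¹ • j)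
        rw [smul_inv_smul, smul_inv_smul, hy, smul_mul', smul_pow', hC, smul_inv_smul,
          smul_inv_smul] at h1
        exact h1.symm)
      (fun c _ => by
        obtain ⟨r, hr, u, hu⟩ := h c
        refine ⟨(r, u), fun i j => (hu i j).1, fun σ hσ => ?_⟩
        refine Prod.ext (hr σ hσ) ?_
        funext i j
        change σ • u (σ⁻¹ • i) (σ⁻¹ • j) = u i j
        rw [(hu _ _).2 σ hσ, smul_inv_smul, smul_inv_smul])
    have e1 : ∀ (σ : Δ) (c : X), (F (σ • c)).1 = σ • (F c).1 := fun σ c =>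
      congrArg Prod.fst (hF σ c trivial)
    have e2 : ∀ (σ : Δ) (c : X) (i j : R), (F (σ • c)).2 (σ • i) (σ • j) = σ • (F c).2 i j := by
      intro σ c i j
      have h1 := congrFun (congrFun (congrArg Prod.snd (hF σ c trivial)) (σ • i)) (σ • j)
      change (F (σ • c)).2 (σ • i) (σ • j) =
        σ • (F c).2 (σ⁻¹ • σ • i) (σ⁻¹ • σ • j) at h1
      rw [inv_smul_smul, inv_smul_smul] at h1
      exact h1
    refine ⟨fun i => (univ.filter fun c => (F c).1 = i).card, fun i j => ∏ c, (F c).2 i j,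
      ?_, ?_, ?_, ?_⟩
    · intro σ i
      symm
      refine Finset.card_bij (fun c _ => σ • c) ?_ ?_ ?_
      · intro c hc
        rw [mem_filter] at hc ⊢
        exact ⟨mem_univ _, by rw [e1, hc.2]⟩
      · intro c _ c' _ hcc
        exact (MulAction.injective σ) hcc
      · intro c hc
        rw [mem_filter] at hc
        refine ⟨σ⁻¹ • c, ?_, smul_inv_smul σ c⟩
        rw [mem_filter]
        exact ⟨mem_univ _, by rw [e1, hc.2, inv_smul_smul]⟩
    · rw [← Finset.card_univ, Finset.card_eq_sum_card_fiberwise (f := fun c => (F c).1)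
        (t := univ) (fun c _ => mem_univ _)]
    · intro σ i j
      change σ • ∏ c, (F c).2 i j = ∏ c, (F c).2 (σ • i) (σ • j)
      rw [smul_prd, ← prod_shift σ (fun c => (F c).2 (σ • i) (σ • j))]
      exact Finset.prod_congr rfl fun c _ => (e2 σ c i j).symm
    · intro i j
      have h1 : ∏ c, av c i j = (∏ c, C (F c).1 i j) * (∏ c, (F c).2 i j) ^ q := by
        rw [← Finset.prod_pow, ← Finset.prod_mul_distrib]
        exact Finset.prod_congr rfl fun c _ => hF' c trivial i j
      rw [h1]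
      congr 1
      rw [← Finset.prod_fiberwise univ (fun c => (F c).1)]
      refine Finset.prod_congr rfl fun r _ => ?_
      rw [Finset.prod_congr rfl (g := fun _ => C r i j) (fun c hc => by
        rw [(mem_filter.1 hc).2]), Finset.prod_const]

theorem orb_sum {I X : Type} [Group I] [MulAction I X] [Fintype X] (q : ℕ)
    (h : ∀ c : X, q ∣ Nat.card (MulAction.orbit I c)) : q ∣ Fintype.card X := by
  classical
  have e := MulAction.selfEquivSigmaOrbits I X
  rw [← Nat.card_eq_fintype_card, Nat.card_congr e, Nat.card_sigma]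
  exact Finset.dvd_sum fun ω _ => h _

theorem orb_prod {I X A : Type} [Group I] [MulAction I X] [Fintype X] [Field A] (q : ℕ)
    (h : ∀ c : X, q ∣ Nat.card (MulAction.orbit I c)) (g : X → A) (h1 : ∀ c, g c ^ q = 1)
    (h2 : ∀ (τ : I) (c : X), g (τ • c) = g c) : ∏ c, g c = 1 := by
  classical
  have e := MulAction.selfEquivSigmaOrbits I X
  letI : Fintype (Quotient (MulAction.orbitRel I X)) := Fintype.ofFinite _
  letI : Fintype (MulAction.orbitRel.Quotient I X) := Fintype.ofFinite _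
  letI : ∀ ω : MulAction.orbitRel.Quotient I X, Fintype (MulAction.orbit I ω.out) :=
    fun ω => Fintype.ofFinite _
  rw [← Equiv.prod_comp (MulAction.selfEquivSigmaOrbits I X).symm, Fintype.prod_sigma]
  refine Finset.prod_eq_one fun ω _ => ?_
  have h3 : ∀ x : MulAction.orbit I ω.out,
      g ((MulAction.selfEquivSigmaOrbits I X).symm ⟨ω, x⟩) = g ω.out := by
    rintro ⟨x, τ, rfl⟩
    exact h2 τ _
  rw [Finset.prod_congr rfl fun x _ => h3 x, Finset.prod_const, Finset.card_univ,
    ← Nat.card_eq_fintype_card]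
  obtain ⟨k, hk⟩ := h ω.out
  rw [hk, pow_mul, h1, one_pow]

theorem pru : S_PRU := by
  classical
  intro Δ X R A _ _ _ _ _ _ I _ q av hq hI hζ hne hav h
  obtain ⟨F, hF, hF'⟩ := eqv_choice (Δ := I) (X := X) (Y := R → R → A)
    (fun τ c => τ • c) (fun c => one_smul I c) (fun σ τ c => mul_smul σ τ c)
    (fun τ u => fun i j => (τ : Δ) • u i j)
    (fun u => by
      funext i j
      change ((1 : I) : Δ) • u i j = u i j
      rw [OneMemClass.coe_one, one_smul])
    (fun σ τ u => by
      funext i j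
      change ((σ * τ : I) : Δ) • u i j = (σ : Δ) • (τ : Δ) • u i j
      rw [Subgroup.coe_mul, mul_smul])
    Set.univ (fun _ _ _ => trivial)
    (fun c u => ∀ i j, av c i j = u i j ^ q)
    (fun τ c _ u hu i j => by
      have h1 := hav (τ : Δ) c i j
      rw [hI τ τ.2 i, hI τ τ.2 j, hu i j, smul_pow'] at h1
      exact h1.symm)
    (fun c _ => by
      obtain ⟨u, hu⟩ := h c
      refine ⟨u, fun i j => (hu i j).1, fun τ hτ => ?_⟩
      funext i j
      exact (hu i j).2 τ τ.2 hτ)
  have e1 : ∀ τ ∈ I, ∀ (c : X) (i j : R), F (τ • c) i j = τ • F c i j := fun τ hτ c i j =>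
    congrFun (congrFun (hF ⟨τ, hτ⟩ c trivial) i) j
  have e2 : ∀ (c : X) (i j : R), av c i j = F c i j ^ q := fun c i j => hF' c trivial i j
  have e3 : ∀ i j, ∏ c, av c i j = (∏ c, F c i j) ^ q := by
    intro i j
    rw [← Finset.prod_pow]
    exact Finset.prod_congr rfl fun c _ => e2 c i j
  have hFne : ∀ c i j, F c i j ≠ 0 := by
    intro c i j h0
    have h1 := e2 c i j
    rw [h0, zero_pow hq.ne'] at h1
    exact hne c i j h1
  refine ⟨⟨fun i j => ∏ c, F c i j, fun i j => ⟨e3 i j, fun τ hτ => ?_⟩⟩, fun ho =>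
    ⟨orb_sum q ho, fun i j => ∏ c, F c i j, fun σ i j => ?_, e3⟩⟩
  · change τ • ∏ c, F c i j = ∏ c, F c i j
    rw [smul_prd, ← prod_shift τ (fun c => F c i j)]
    exact Finset.prod_congr rfl fun c _ => (e1 τ hτ c i j).symm
  · change σ • ∏ c, F c i j = ∏ c, F c (σ • i) (σ • j)
    let g : X → A := fun c => (σ • F c i j) / F (σ • c) (σ • i) (σ • j)
    have hg1 : ∀ c, g c ^ q = 1 := by
      intro c
      change ((σ • F c i j) / F (σ • c) (σ • i) (σ • j)) ^ q = 1
      rw [div_pow, ← smul_pow', ← e2, ← e2, hav, div_self (hne _ _ _)]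
    have hg2 : ∀ (τ : I) (c : X), g (τ • c) = g c := by
      intro τ c
      have hτ' : σ * (τ : Δ) * σ⁻¹ ∈ I := (inferInstance : I.Normal).conj_mem τ τ.2 σ
      have h1 : σ • F (τ • c) i j = (σ * (τ : Δ) * σ⁻¹) • σ • F c i j := by
        have h2 : F (τ • c) i j = (τ : Δ) • F c i j := e1 τ τ.2 c i j
        rw [h2, ← mul_smul, ← mul_smul, inv_mul_cancel_right]
      have h3 : F (σ • τ • c) (σ • i) (σ • j) =
          (σ * (τ : Δ) * σ⁻¹) • F (σ • c) (σ • i) (σ • j) := by
        have h4 : σ • τ • c = (σ * (τ : Δ) * σ⁻¹) • σ • c := by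
          change σ • (τ : Δ) • c = _
          rw [← mul_smul, ← mul_smul, inv_mul_cancel_right]
        rw [h4, e1 _ hτ']
      change (σ • F (τ • c) i j) / F (σ • τ • c) (σ • i) (σ • j) = g c
      rw [h1, h3, ← smul_dv]
      exact hζ _ hτ' _ (hg1 c)
    have h5 := orb_prod q ho g hg1 hg2
    have h6 : ∀ c, σ • F c i j = g c * F (σ • c) (σ • i) (σ • j) := fun c =>
      (div_mul_cancel₀ _ (hFne _ _ _)).symm
    rw [smul_prd, Finset.prod_congr rfl fun c _ => h6 c, Finset.prod_mul_distrib, h5, one_mul]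
    exact prod_shift σ (fun c => F c (σ • i) (σ • j))

end Pool.Agent.Q162.SZ
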